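import Pool.Agent.helper64.D2.SpecS

/-!
# Module KRS of project dc:
-/

set_option autoImplicit false

open Filter Topology

open scoped commutatorElement

namespace Pool.Agent.helper64.D2

/-- The move lemma. -/
theorem KRS : KRS_stmt := by
  intro x y V hV hy hx
  have h1 : x = sh V * y * V⁻¹ := by
    rw [← hx]; group
  have h2 : x * y⁻¹ = (sh V * V⁻¹) * (V * y * V⁻¹ * y⁻¹) := by
    rw [h1]; group
  rw [h2]
  refine K0.mul_mem ?_ ?_
  · exact Subgroup.subset_closure (Or.inr ⟨V, hV, rfl⟩)
  · exact Subgroup.subset_closure (Or.inl ⟨V, y, hV, hy, rfl⟩)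

end Pool.Agent.helper64.D2
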